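import Mathlib

/-!
# Parikh tree automata with reset are strictly stronger than those without reset

`PTAR rk m` is an `m`-dimensional Parikh tree automaton with reset over the ranked alphabet
`(S, rk)`.  The main theorem `result` gives a ranked alphabet and a tree language that is
recognized by a PTAR but by no PTA (of any dimension).

Proof idea.  The language contains the trees
`a^(x1) sg(a^(y1) e, a^(x2) sg(a^(y2) e, ... e))` exactly when `x = y`.  For a PTA with `m`
counters we look at `m + 1` blocks.  For each sequence of transitions at the `sg` nodes, the set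
of all (block length, block increment) vectors of accepting runs on balanced trees is semilinear.
A lacunary choice of the lengths forces a linear set with periods that form a triangular system,
and `m + 1` vectors with `m` coordinates are linearly dependent: this gives two accepting runs with
the same counter vector at some `sg` node but different lengths, and a hybrid run accepts an
unbalanced tree.
-/

namespace Pool.Agent.Results.MP_78a33a_lc.Separation

/-- Trees over a ranked alphabet: a node labelled `s` has exactly `rk s` ordered children. -/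
inductive RTree {S : Type} (rk : S → ℕ) : Type
  | node (s : S) (c : Fin (rk s) → RTree rk) : RTree rk

/-- An `m`-dimensional Parikh tree automaton with reset.  A transition is a label `s`, a source
state and, for each child, a target state and an instruction: `some e` adds `e` to the counters,
`none` resets them. For labels of rank `0` the last component carries no information. -/
structure PTAR {S : Type} (rk : S → ℕ) (m : ℕ) where
  Q : Type
  finQ : Finite Q
  init : Q
  trans : Set (Σ s : S, Q × (Fin (rk s) → Q × Option (Fin m → ℕ)))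
  finTrans : trans.Finite
  acc : Set (Fin m → ℕ)
  semilinear : IsSemilinearSet acc

/-- The counter vector passed to a child. -/
def upd {m : ℕ} (s : Fin m → ℕ) : Option (Fin m → ℕ) → (Fin m → ℕ)
  | none => 0
  | some e => s + e

/-- There is a run on the tree that starts in the given state with the given counter values. -/
inductive Acc {S : Type} {rk : S → ℕ} {m : ℕ} (A : PTAR rk m) :
    A.Q → (Fin m → ℕ) → RTree rk → Prop
  | node (s : S) (c : Fin (rk s) → RTree rk) (q : A.Q) (w : Fin m → ℕ)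
      (f : Fin (rk s) → A.Q × Option (Fin m → ℕ))
      (htrans : (⟨s, q, f⟩ : Σ s : S, A.Q × (Fin (rk s) → A.Q × Option (Fin m → ℕ))) ∈ A.trans)
      (hleaf : rk s = 0 → w ∈ A.acc)
      (hchildren : ∀ i, Acc A (f i).1 (upd w (f i).2) (c i)) : Acc A q w (RTree.node s c)

/-- The language of a PTAR. -/
def PTAR.lang {S : Type} {rk : S → ℕ} {m : ℕ} (A : PTAR rk m) : Set (RTree rk) :=
  {t | Acc A A.init 0 t}

/-- No transition contains the reset instruction: the automaton is a PTA. -/
def PTAR.NoReset {S : Type} {rk : S → ℕ} {m : ℕ} (A : PTAR rk m) : Prop :=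
  ∀ t ∈ A.trans, ∀ i, (t.2.2 i).2 ≠ none

/-- Recognizable by some PTAR. -/
def PTARRecognizable {S : Type} {rk : S → ℕ} (L : Set (RTree rk)) : Prop :=
  ∃ m : ℕ, 1 ≤ m ∧ ∃ A : PTAR rk m, A.lang = L

/-- Recognizable by some PTA. -/
def PTARecognizable {S : Type} {rk : S → ℕ} (L : Set (RTree rk)) : Prop :=
  ∃ m : ℕ, 1 ≤ m ∧ ∃ A : PTAR rk m, A.NoReset ∧ A.lang = L

/-! ### Walks in a finite weighted graph: the set of weights is semilinear -/

section Walks

open Pointwise

variable {Q M : Type} [AddCommMonoid M]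

/-- Nonempty walks with intermediate vertices in `K`. -/
inductive Walk (E : Q → M → Q → Prop) (K : Set Q) : Q → Q → M → Prop
  | edge {p q : Q} {w : M} : E p w q → Walk E K p q w
  | cons {p r q : Q} {w w' : M} : E p w r → r ∈ K → Walk E K r q w' → Walk E K p q (w + w')

theorem Walk.trans {E : Q → M → Q → Prop} {K : Set Q} {p r q : Q} {w w' : M}
    (h : Walk E K p r w) (hr : r ∈ K) (h' : Walk E K r q w') : Walk E K p q (w + w') := by
  induction h with
  | edge he => exact Walk.cons he hr h'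
  | cons he hk _ ih =>
    rw [add_assoc]
    exact Walk.cons he hk (ih hr h')

theorem Walk.mono {E : Q → M → Q → Prop} {K K' : Set Q} (hK : K ⊆ K') {p q : Q} {w : M}
    (h : Walk E K p q w) : Walk E K' p q w := by
  induction h with
  | edge he => exact Walk.edge he
  | cons he hk _ ih => exact Walk.cons he (hK hk) ih

theorem Walk.decomp {E : Q → M → Q → Prop} {K : Set Q} {r : Q} {p q : Q} {w : M}
    (h : Walk E (insert r K) p q w) :
    Walk E K p q w ∨ ∃ w1 w2 w3, w = w1 + (w2 + w3) ∧ Walk E K p r w1 ∧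
      w2 ∈ AddSubmonoid.closure {w | Walk E K r r w} ∧ Walk E K r q w3 := by
  induction h with
  | edge he => exact Or.inl (Walk.edge he)
  | @cons p s q w w' he hk _ ih =>
    rcases Set.mem_insert_iff.1 hk with rfl | hk
    · right
      rcases ih with ih | ⟨w1, w2, w3, rfl, h1, h2, h3⟩
      · exact ⟨w, 0, w', by rw [zero_add], Walk.edge he, zero_mem _, ih⟩
      · refine ⟨w, w1 + w2, w3, by rw [add_assoc], Walk.edge he, ?_, h3⟩
        exact add_mem (AddSubmonoid.subset_closure h1) h2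
    · rcases ih with ih | ⟨w1, w2, w3, rfl, h1, h2, h3⟩
      · exact Or.inl (Walk.cons he hk ih)
      · right
        exact ⟨w + w1, w2, w3, by rw [add_assoc], Walk.cons he hk h1, h2, h3⟩

theorem Walk.loop {E : Q → M → Q → Prop} {K : Set Q} {r : Q} {w : M}
    (h : w ∈ AddSubmonoid.closure {w | Walk E K r r w}) :
    w = 0 ∨ Walk E (insert r K) r r w := by
  induction h using AddSubmonoid.closure_induction with
  | mem x hx => exact Or.inr (Walk.mono (Set.subset_insert _ _) hx)
  | zero => exact Or.inl rfl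
  | add x y _ _ hx hy =>
    rcases hx with rfl | hx
    · rw [zero_add]; exact hy
    · rcases hy with rfl | hy
      · rw [add_zero]; exact Or.inr hx
      · exact Or.inr (Walk.trans hx (Set.mem_insert _ _) hy)

theorem Walk.semilinear [Finite Q] (E : Q → M → Q → Prop) (hE : ∀ p q, {w | E p w q}.Finite)
    (K : Set Q) : ∀ p q, IsSemilinearSet {w | Walk E K p q w} := by
  have hK : K.Finite := Set.toFinite K
  induction K, hK using Set.Finite.induction_on with
  | empty =>
    intro p q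
    have : {w | Walk E ∅ p q w} = {w | E p w q} := by
      ext w
      constructor
      · intro h
        cases h with
        | edge he => exact he
        | cons _ hk _ => exact absurd hk (Set.notMem_empty _)
      · intro h
        exact Walk.edge h
    rw [this]
    exact IsSemilinearSet.of_finite (hE p q)
  | @insert r K _ _ ih =>
    intro p q
    have : {w | Walk E (insert r K) p q w} = {w | Walk E K p q w} ∪
        ({w | Walk E K p r w} + (((AddSubmonoid.closure {w | Walk E K r r w} : AddSubmonoid M) :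
          Set M) + {w | Walk E K r q w})) := by
      ext w
      constructor
      · intro h
        rcases Walk.decomp h with h | ⟨w1, w2, w3, rfl, h1, h2, h3⟩
        · exact Or.inl h
        · exact Or.inr (Set.add_mem_add h1 (Set.add_mem_add h2 h3))
      · rintro (h | h)
        · exact Walk.mono (Set.subset_insert _ _) h
        · obtain ⟨w1, h1, w23, ⟨w2, h2, w3, h3, rfl⟩, rfl⟩ := h
          have h1' : Walk E (insert r K) p r w1 := Walk.mono (Set.subset_insert _ _) h1
          have h3' : Walk E (insert r K) r q w3 := Walk.mono (Set.subset_insert _ _) h3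
          rcases Walk.loop h2 with rfl | h2
          · simpa using Walk.trans h1' (Set.mem_insert _ _) h3'
          · exact Walk.trans h1' (Set.mem_insert _ _)
              (Walk.trans h2 (Set.mem_insert _ _) h3')
    rw [this]
    exact (ih p q).union ((ih p r).add ((ih r r).closure.add (ih r q)))

end Walks

/-! ### The ranked alphabet and the trees -/

/-- The alphabet: `sg` of rank 2, `a` of rank 1, `e` of rank 0. -/
inductive Sym
  | sg | a | e

/-- The rank map. -/
def rk : Sym → ℕ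
  | Sym.sg => 2
  | Sym.a => 1
  | Sym.e => 0

def sgT (l r : RTree rk) : RTree rk := RTree.node Sym.sg (![l, r] : Fin 2 → RTree rk)

def aT (t : RTree rk) : RTree rk := RTree.node Sym.a (fun _ => t)

def eT : RTree rk := RTree.node Sym.e (fun i => (Fin.elim0 i : RTree rk))

def chain : ℕ → RTree rk → RTree rk
  | 0, t => t
  | n + 1, t => aT (chain n t)

def tr : (n : ℕ) → (x y : Fin n → ℕ) → RTree rk
  | 0, _, _ => eT
  | n + 1, x, y => chain (x 0) (sgT (chain (y 0) eT) (tr n (Fin.tail x) (Fin.tail y)))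

variable {m : ℕ}

theorem acc_node {S : Type} {rk : S → ℕ} (A : PTAR rk m) (q : A.Q) (w : Fin m → ℕ) (s : S)
    (c : Fin (rk s) → RTree rk) :
    Acc A q w (RTree.node s c) ↔ ∃ f : Fin (rk s) → A.Q × Option (Fin m → ℕ),
      (⟨s, q, f⟩ : Σ s : S, A.Q × (Fin (rk s) → A.Q × Option (Fin m → ℕ))) ∈ A.trans ∧
      (rk s = 0 → w ∈ A.acc) ∧ ∀ i, Acc A (f i).1 (upd w (f i).2) (c i) := by
  constructor
  · intro h
    cases h with
    | node _ _ _ _ f h1 h2 h3 => exact ⟨f, h1, h2, h3⟩
  · rintro ⟨f, h1, h2, h3⟩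
    exact Acc.node s c q w f h1 h2 h3

theorem acc_eT (A : PTAR rk m) (q : A.Q) (w : Fin m → ℕ) :
    Acc A q w eT ↔ (∃ f, (⟨Sym.e, q, f⟩ :
      Σ s : Sym, A.Q × (Fin (rk s) → A.Q × Option (Fin m → ℕ))) ∈ A.trans) ∧ w ∈ A.acc := by
  unfold eT
  rw [acc_node]
  constructor
  · rintro ⟨f, h1, h2, -⟩
    exact ⟨⟨f, h1⟩, h2 rfl⟩
  · rintro ⟨⟨f, h1⟩, h2⟩
    exact ⟨f, h1, fun _ => h2, fun i => Fin.elim0 i⟩

theorem acc_aT (A : PTAR rk m) (q : A.Q) (w : Fin m → ℕ) (t : RTree rk) :
    Acc A q w (aT t) ↔ ∃ f : Fin 1 → A.Q × Option (Fin m → ℕ), (⟨Sym.a, q, f⟩ :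
      Σ s : Sym, A.Q × (Fin (rk s) → A.Q × Option (Fin m → ℕ))) ∈ A.trans ∧
      Acc A (f 0).1 (upd w (f 0).2) t := by
  unfold aT
  rw [acc_node]
  constructor
  · rintro ⟨f, h1, -, h3⟩
    exact ⟨f, h1, h3 (0 : Fin 1)⟩
  · rintro ⟨f, h1, h2⟩
    refine ⟨f, h1, fun h => absurd h (by decide), fun i => ?_⟩
    have : i = (0 : Fin 1) := Subsingleton.elim (α := Fin 1) _ _
    rw [this]; exact h2

theorem acc_sgT (A : PTAR rk m) (q : A.Q) (w : Fin m → ℕ) (l r : RTree rk) :
    Acc A q w (sgT l r) ↔ ∃ f : Fin 2 → A.Q × Option (Fin m → ℕ), (⟨Sym.sg, q, f⟩ :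
      Σ s : Sym, A.Q × (Fin (rk s) → A.Q × Option (Fin m → ℕ))) ∈ A.trans ∧
      Acc A (f 0).1 (upd w (f 0).2) l ∧ Acc A (f 1).1 (upd w (f 1).2) r := by
  refine (acc_node A q w Sym.sg _).trans ?_
  constructor
  · rintro ⟨f, h1, -, h3⟩
    exact ⟨f, h1, h3 (0 : Fin 2), h3 (1 : Fin 2)⟩
  · rintro ⟨f, h1, h2, h3⟩
    refine ⟨f, h1, fun h => absurd h (by decide), ?_⟩
    intro i
    change Fin 2 at i
    fin_cases i
    · exact h2
    · exact h3

/-! ### Chains in a PTA -/

/-- An `a`-transition from `p` to `q` adding `e`. -/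
def Edge (A : PTAR rk m) (p : A.Q) (e : Fin m → ℕ) (q : A.Q) : Prop :=
  ∃ f : Fin 1 → A.Q × Option (Fin m → ℕ), (⟨Sym.a, p, f⟩ :
      Σ s : Sym, A.Q × (Fin (rk s) → A.Q × Option (Fin m → ℕ))) ∈ A.trans ∧
      f 0 = (q, some e)

theorem acc_aT' (A : PTAR rk m) (hA : A.NoReset) (q : A.Q) (w : Fin m → ℕ) (t : RTree rk) :
    Acc A q w (aT t) ↔ ∃ r e, Edge A q e r ∧ Acc A r (w + e) t := by
  rw [acc_aT]
  constructor
  · rintro ⟨f, h1, h2⟩
    rcases hf : f 0 with ⟨r, o⟩
    cases o with
    | none =>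
      have h0 : (f (0 : Fin 1)).2 = none := by rw [hf]
      exact absurd h0 (hA _ h1 (0 : Fin 1))
    | some e =>
      refine ⟨r, e, ⟨f, h1, hf⟩, ?_⟩
      rw [hf] at h2
      exact h2
  · rintro ⟨r, e, ⟨f, h1, hf⟩, h2⟩
    refine ⟨f, h1, ?_⟩
    rw [hf]
    exact h2

/-- Paths of `n` edges from `p` to `q` of total increment `v`. -/
def R (A : PTAR rk m) : ℕ → A.Q → A.Q → (Fin m → ℕ) → Prop
  | 0, p, q, v => p = q ∧ v = 0
  | n + 1, p, q, v => ∃ r e v', Edge A p e r ∧ R A n r q v' ∧ v = e + v'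

theorem acc_chain (A : PTAR rk m) (hA : A.NoReset) (t : RTree rk) (n : ℕ) :
    ∀ (q : A.Q) (w : Fin m → ℕ), Acc A q w (chain n t) ↔
      ∃ p v, R A n q p v ∧ Acc A p (w + v) t := by
  induction n with
  | zero =>
    intro q w
    constructor
    · intro h
      exact ⟨q, 0, ⟨rfl, rfl⟩, by rw [add_zero]; exact h⟩
    · rintro ⟨p, v, ⟨rfl, rfl⟩, h⟩
      rw [add_zero] at h
      exact h
  | succ n ih =>
    intro q w
    change Acc A q w (aT (chain n t)) ↔ _
    rw [acc_aT' A hA]
    constructor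
    · rintro ⟨r, e, he, h⟩
      obtain ⟨p, v, hR, h⟩ := (ih r (w + e)).1 h
      exact ⟨p, e + v, ⟨r, e, v, he, hR, rfl⟩, by rw [← add_assoc]; exact h⟩
    · rintro ⟨p, v, ⟨r, e, v', he, hR, rfl⟩, h⟩
      exact ⟨r, e, he, (ih r (w + e)).2 ⟨p, v', hR, by rw [add_assoc]; exact h⟩⟩

theorem R_bound (A : PTAR rk m) : ∃ b : Fin m → ℕ, ∀ n p q v, R A n p q v → v ≤ n • b := by
  have hfin : {e | ∃ p q, Edge A p e q}.Finite := by
    have h1 := A.finTrans.image (fun t : Σ s : Sym, A.Q × (Fin (rk s) → A.Q × Option (Fin m → ℕ)) =>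
      match t with
      | ⟨Sym.a, _, f⟩ => ((f (0 : Fin 1)).2).getD 0
      | _ => 0)
    refine h1.subset ?_
    rintro e ⟨p, q, f, hf, hf0⟩
    refine ⟨_, hf, ?_⟩
    change ((f 0).2).getD 0 = e
    rw [hf0]
    rfl
  obtain ⟨b, hb⟩ := hfin.bddAbove
  refine ⟨b, ?_⟩
  intro n
  induction n with
  | zero =>
    rintro p q v ⟨-, rfl⟩
    simp
  | succ n ih =>
    rintro p q v ⟨r, e, v', he, hR, rfl⟩
    rw [succ_nsmul']
    exact add_le_add (hb ⟨p, r, he⟩) (ih _ _ _ hR)

theorem semilinear_R (A : PTAR rk m) (p q : A.Q) :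
    IsSemilinearSet {u : ℕ × (Fin m → ℕ) | R A u.1 p q u.2} := by
  classical
  have := A.finQ
  let E : A.Q → ℕ × (Fin m → ℕ) → A.Q → Prop := fun p w q => w.1 = 1 ∧ Edge A p w.2 q
  have hE : ∀ p q, {w | E p w q}.Finite := by
    intro p q
    have h1 := A.finTrans.image (fun t : Σ s : Sym, A.Q × (Fin (rk s) → A.Q × Option (Fin m → ℕ)) =>
      match t with
      | ⟨Sym.a, _, f⟩ => ((1 : ℕ), ((f (0 : Fin 1)).2).getD 0)
      | _ => (1, 0))
    refine h1.subset ?_
    rintro ⟨k, e⟩ ⟨hk, f, hf, hf0⟩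
    refine ⟨_, hf, ?_⟩
    change (1, ((f 0).2).getD 0) = (k, e)
    rw [hf0]
    exact Prod.ext hk.symm rfl
  have key : {u : ℕ × (Fin m → ℕ) | R A u.1 p q u.2} =
      (if p = q then {0} else ∅) ∪ {w | Walk E Set.univ p q w} := by
    ext ⟨n, v⟩
    constructor
    · intro h
      change R A n p q v at h
      by_cases hn : n = 0
      · subst hn
        obtain ⟨rfl, rfl⟩ := h
        left
        simp
      · right
        change Walk E Set.univ p q (n, v)
        obtain ⟨n, rfl⟩ := Nat.exists_eq_succ_of_ne_zero hn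
        clear hn
        induction n generalizing p v with
        | zero =>
          obtain ⟨r, e, v', he, ⟨rfl, rfl⟩, rfl⟩ := h
          rw [add_zero]
          exact Walk.edge ⟨rfl, he⟩
        | succ n ih =>
          obtain ⟨r, e, v', he, hR, rfl⟩ := h
          have := Walk.cons (E := E) (K := Set.univ) (w := (1, e)) ⟨rfl, he⟩ (Set.mem_univ r)
            (ih r v' hR)
          rw [Prod.mk_add_mk] at this
          convert this using 2
          simp only [Nat.succ_eq_add_one]
          ring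
    · rintro (h | h)
      · split_ifs at h with hpq
        · subst hpq
          have : (n, v) = 0 := h
          rw [Prod.ext_iff] at this
          obtain ⟨h1, h2⟩ := this
          simp only [Prod.fst_zero, Prod.snd_zero] at h1 h2
          subst h1 h2
          exact ⟨rfl, rfl⟩
        · exact absurd h (Set.notMem_empty _)
      · change R A (n, v).1 p q (n, v).2
        generalize (n, v) = u at h
        change Walk E Set.univ p q u at h
        induction h with
        | @edge p q w he =>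
          rw [he.1]
          exact ⟨q, w.2, 0, he.2, ⟨rfl, rfl⟩, (add_zero _).symm⟩
        | @cons p r q w w' he _ _ ih =>
          rw [Prod.fst_add, he.1, add_comm, Prod.snd_add]
          exact ⟨r, w.2, w'.2, he.2, ih, rfl⟩
  rw [key]
  refine IsSemilinearSet.union ?_ (Walk.semilinear E hE Set.univ p q)
  split_ifs
  · exact IsSemilinearSet.singleton 0
  · exact IsSemilinearSet.empty

/-- Translates of semilinear sets. -/
theorem semilinear_shift {M : Type} [AddCommMonoid M] [AddMonoid.FG M] {B : Set M}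
    (hB : IsSemilinearSet B) (c : M) : IsSemilinearSet {u | u + c ∈ B} := by
  let g : (ℕ × M) →+ M := (AddMonoidHom.snd ℕ M) +
    ((multiplesHom M c).comp (AddMonoidHom.fst ℕ M))
  have h1 : IsSemilinearSet (g ⁻¹' B ∩ (AddMonoidHom.fst ℕ M) ⁻¹' {1}) :=
    (hB.preimage g).inter ((IsSemilinearSet.singleton 1).preimage _)
  have h2 := h1.image (AddMonoidHom.snd ℕ M)
  convert h2 using 1
  ext u
  constructor
  · intro hu
    refine ⟨(1, u), ⟨?_, rfl⟩, rfl⟩
    simpa [g] using hu
  · rintro ⟨⟨k, u'⟩, ⟨h3, h4⟩, rfl⟩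
    have h4' : k = 1 := h4
    subst h4'
    simpa [g] using h3

theorem semilinear_leafset (A : PTAR rk m) (q : A.Q) (c : Fin m → ℕ) :
    IsSemilinearSet {s : Fin m → ℕ | Acc A q (s + c) eT} := by
  classical
  by_cases h : ∃ f, (⟨Sym.e, q, f⟩ :
      Σ s : Sym, A.Q × (Fin (rk s) → A.Q × Option (Fin m → ℕ))) ∈ A.trans
  · have : {s : Fin m → ℕ | Acc A q (s + c) eT} = {s | s + c ∈ A.acc} := by
      ext s
      change Acc A q (s + c) eT ↔ s + c ∈ A.acc
      rw [acc_eT]
      exact ⟨fun h => h.2, fun h' => ⟨h, h'⟩⟩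
    rw [this]
    exact semilinear_shift A.semilinear c
  · have : {s : Fin m → ℕ | Acc A q (s + c) eT} = ∅ := by
      ext s
      constructor
      · intro h'
        exact absurd ((acc_eT A q _).1 h').1 h
      · intro h'
        exact absurd h' (Set.notMem_empty _)
    rw [this]
    exact IsSemilinearSet.empty

theorem semilinear_branch (A : PTAR rk m) (hA : A.NoReset) (q : A.Q) (c : Fin m → ℕ) :
    IsSemilinearSet {u : ℕ × (Fin m → ℕ) | Acc A q (u.2 + c) (chain u.1 eT)} := by
  have := A.finQ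
  let V := Fin m → ℕ
  let M := (ℕ × V) × V
  let py : M →+ ℕ := (AddMonoidHom.fst ℕ V).comp (AddMonoidHom.fst (ℕ × V) V)
  let ps : M →+ V := (AddMonoidHom.snd ℕ V).comp (AddMonoidHom.fst (ℕ × V) V)
  let pv : M →+ V := AddMonoidHom.snd (ℕ × V) V
  have key : {u : ℕ × (Fin m → ℕ) | Acc A q (u.2 + c) (chain u.1 eT)} =
      ⋃ p : A.Q, (AddMonoidHom.fst (ℕ × V) V) ''
        ((py.prod pv) ⁻¹' {u : ℕ × (Fin m → ℕ) | R A u.1 q p u.2} ∩
          (ps + pv) ⁻¹' {s : Fin m → ℕ | Acc A p (s + c) eT}) := by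
    ext ⟨y, s⟩
    simp only [Set.mem_iUnion]
    change Acc A q (s + c) (chain y eT) ↔ _
    rw [acc_chain A hA]
    constructor
    · rintro ⟨p, v, hR, h⟩
      refine ⟨p, ((y, s), v), ⟨hR, ?_⟩, rfl⟩
      change Acc A p (s + v + c) eT
      rw [add_right_comm]
      exact h
    · rintro ⟨p, ⟨⟨y', s'⟩, v⟩, ⟨hR, h⟩, h3⟩
      have h3' : (y', s') = (y, s) := h3
      rw [Prod.mk.injEq] at h3'
      obtain ⟨rfl, rfl⟩ := h3'
      refine ⟨p, v, hR, ?_⟩
      have h' : Acc A p (s' + v + c) eT := h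
      rw [add_right_comm] at h'
      exact h'
  rw [key]
  refine IsSemilinearSet.iUnion fun p => IsSemilinearSet.image ?_ _
  exact ((semilinear_R A q p).preimage _).inter ((semilinear_leafset A p c).preimage _)

/-! ### Runs on the block trees -/

/-- The transitions at `sg`. -/
abbrev Tr (A : PTAR rk m) : Type :=
  {t : A.Q × (Fin 2 → A.Q × Option (Fin m → ℕ)) //
    (⟨Sym.sg, t⟩ : Σ s : Sym, A.Q × (Fin (rk s) → A.Q × Option (Fin m → ℕ))) ∈ A.trans}

theorem finite_Tr (A : PTAR rk m) : Finite (Tr A) := by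
  have := A.finTrans
  have h2 : Finite A.trans := this
  refine Finite.of_injective (fun t : Tr A => (⟨⟨Sym.sg, t.1⟩, t.2⟩ : A.trans)) ?_
  rintro ⟨t, ht⟩ ⟨t', ht'⟩ h
  have h' := Subtype.ext_iff.1 h
  exact Subtype.ext (eq_of_heq (Sigma.mk.inj_iff.1 h').2)

/-- Accepting runs on the block tree with given transitions at the `sg` nodes and given block
increments. -/
def Run (A : PTAR rk m) : (n : ℕ) → (Fin n → Tr A) → (x y : Fin n → ℕ) →
    (Fin n → (Fin m → ℕ)) → A.Q → (Fin m → ℕ) → Prop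
  | 0, _, _, _, _, q, s => Acc A q s eT
  | n + 1, t, x, y, v, q, s =>
      R A (x 0) q (t 0).1.1 (v 0) ∧
      Acc A ((t 0).1.2 0).1 (upd (s + v 0) ((t 0).1.2 0).2) (chain (y 0) eT) ∧
      Run A n (Fin.tail t) (Fin.tail x) (Fin.tail y) (Fin.tail v) ((t 0).1.2 1).1
        (upd (s + v 0) ((t 0).1.2 1).2)

theorem acc_tr (A : PTAR rk m) (hA : A.NoReset) (n : ℕ) : ∀ (x y : Fin n → ℕ) (q : A.Q)
    (s : Fin m → ℕ), Acc A q s (tr n x y) ↔ ∃ t v, Run A n t x y v q s := by
  induction n with
  | zero =>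
    intro x y q s
    exact ⟨fun h => ⟨Fin.elim0, Fin.elim0, h⟩, fun ⟨_, _, h⟩ => h⟩
  | succ n ih =>
    intro x y q s
    change Acc A q s (chain (x 0) (sgT (chain (y 0) eT) (tr n (Fin.tail x) (Fin.tail y)))) ↔ _
    rw [acc_chain A hA]
    constructor
    · rintro ⟨p, v0, hR, h⟩
      rw [acc_sgT] at h
      obtain ⟨f, hf, h1, h2⟩ := h
      rw [ih] at h2
      obtain ⟨t, v, h2⟩ := h2
      refine ⟨Fin.cons (⟨(p, f), hf⟩ : Tr A) t, Fin.cons v0 v, ?_, ?_, ?_⟩
      · exact hR
      · exact h1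
      · rw [Fin.tail_cons, Fin.tail_cons]
        exact h2
    · rintro ⟨t, v, h1, h2, h3⟩
      refine ⟨_, _, h1, ?_⟩
      rw [acc_sgT]
      refine ⟨(t 0).1.2, (t 0).2, h2, ?_⟩
      rw [ih]
      exact ⟨_, _, h3⟩

theorem Tr.noReset (A : PTAR rk m) (hA : A.NoReset) (t : Tr A) (i : Fin 2) :
    ∃ e, (t.1.2 i).2 = some e := by
  have h := hA _ t.2 i
  exact Option.ne_none_iff_exists'.1 h

theorem semilinear_run (A : PTAR rk m) (hA : A.NoReset) {M : Type} [AddCommMonoid M]
    [AddMonoid.FG M] (n : ℕ) : ∀ (t : Fin n → Tr A) (X : Fin n → (M →+ ℕ))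
    (W : Fin n → (M →+ (Fin m → ℕ))) (q : A.Q) (s : M →+ (Fin m → ℕ)) (c : Fin m → ℕ),
    IsSemilinearSet {u : M | Run A n t (fun i => X i u) (fun i => X i u) (fun i => W i u) q
      (s u + c)} := by
  induction n with
  | zero =>
    intro t X W q s c
    exact (semilinear_leafset A q c).preimage s
  | succ n ih =>
    intro t X W q s c
    obtain ⟨e0, he0⟩ := Tr.noReset A hA (t 0) 0
    obtain ⟨e1, he1⟩ := Tr.noReset A hA (t 0) 1
    have h1 : IsSemilinearSet ((((X 0).prod (W 0) : M →+ ℕ × (Fin m → ℕ))) ⁻¹'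
        {u : ℕ × (Fin m → ℕ) | R A u.1 q (t 0).1.1 u.2}) := (semilinear_R A _ _).preimage _
    have h2 : IsSemilinearSet ((((X 0).prod (s + W 0) : M →+ ℕ × (Fin m → ℕ))) ⁻¹'
        {u : ℕ × (Fin m → ℕ) | Acc A ((t 0).1.2 0).1 (u.2 + (c + e0)) (chain u.1 eT)}) :=
      (semilinear_branch A hA _ _).preimage _
    have h3 := ih (Fin.tail t) (Fin.tail X) (Fin.tail W) ((t 0).1.2 1).1 (s + W 0) (c + e1)
    have h4 := h1.inter (h2.inter h3)
    convert h4 using 1
    ext u
    change (R A (X 0 u) q (t 0).1.1 (W 0 u) ∧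
      Acc A ((t 0).1.2 0).1 (upd (s u + c + W 0 u) ((t 0).1.2 0).2) (chain (X 0 u) eT) ∧
      Run A n (Fin.tail t) (fun i => Fin.tail X i u) (fun i => Fin.tail X i u)
        (fun i => Fin.tail W i u) ((t 0).1.2 1).1 (upd (s u + c + W 0 u) ((t 0).1.2 1).2)) ↔
      (R A (X 0 u) q (t 0).1.1 (W 0 u) ∧
      Acc A ((t 0).1.2 0).1 (s u + W 0 u + (c + e0)) (chain (X 0 u) eT) ∧
      Run A n (Fin.tail t) (fun i => Fin.tail X i u) (fun i => Fin.tail X i u)
        (fun i => Fin.tail W i u) ((t 0).1.2 1).1 (s u + W 0 u + (c + e1)))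
    rw [he0, he1]
    have e2 : upd (s u + c + W 0 u) (some e0) = s u + W 0 u + (c + e0) := by
      change s u + c + W 0 u + e0 = _
      abel
    have e3 : upd (s u + c + W 0 u) (some e1) = s u + W 0 u + (c + e1) := by
      change s u + c + W 0 u + e1 = _
      abel
    rw [e2, e3]

theorem run_hybrid (A : PTAR rk m) (hA : A.NoReset) (n : ℕ) : ∀ (t : Fin n → Tr A)
    (x x' : Fin n → ℕ) (v v' : Fin n → (Fin m → ℕ)) (q : A.Q) (s s' : Fin m → ℕ),
    Run A n t x x v q s → Run A n t x' x' v' q s' → ∀ j : Fin n,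
    (s + ∑ l, if l ≤ j then v l else 0) = (s' + ∑ l, if l ≤ j then v' l else 0) →
    Run A n t x (Function.update x j (x' j)) v q s := by
  induction n with
  | zero =>
    intro t x x' v v' q s s' _ _ j
    exact Fin.elim0 j
  | succ n ih =>
    intro t x x' v v' q s s' h h' j hj
    obtain ⟨h1, h2, h3⟩ := h
    obtain ⟨h1', h2', h3'⟩ := h'
    rw [Fin.sum_univ_succ, Fin.sum_univ_succ] at hj
    refine Fin.cases ?_ (fun j hj => ?_) j hj
    · intro hj
      have hsum : s + v 0 = s' + v' 0 := by simpa [Fin.succ_ne_zero] using hj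
      refine ⟨h1, ?_, ?_⟩
      · rw [hsum, Function.update_self]
        exact h2'
      · rw [Fin.tail_update_zero]
        exact h3
    · simp only [Fin.zero_le, if_true, Fin.succ_le_succ_iff] at hj
      refine ⟨h1, ?_, ?_⟩
      · rw [Function.update_of_ne (Fin.succ_ne_zero j).symm]
        exact h2
      · rw [Fin.tail_update_succ]
        obtain ⟨e1, he1⟩ := Tr.noReset A hA (t 0) 1
        refine ih (Fin.tail t) (Fin.tail x) (Fin.tail x') (Fin.tail v) (Fin.tail v') _ _ _ h3 h3' j
          ?_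
        rw [he1]
        change s + v 0 + e1 + _ = s' + v' 0 + e1 + _
        rw [add_right_comm (s + v 0), add_right_comm (s' + v' 0), add_assoc s, add_assoc s']
        congr 1

theorem run_bound (A : PTAR rk m) (b : Fin m → ℕ)
    (hb : ∀ n p q v, R A n p q v → v ≤ n • b) (n : ℕ) : ∀ (t : Fin n → Tr A)
    (x y : Fin n → ℕ) (v : Fin n → (Fin m → ℕ)) (q : A.Q) (s : Fin m → ℕ),
    Run A n t x y v q s → ∀ i, v i ≤ x i • b := by
  induction n with
  | zero =>
    intro t x y v q s _ i
    exact Fin.elim0 i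
  | succ n ih =>
    intro t x y v q s h i
    obtain ⟨h1, -, h3⟩ := h
    refine Fin.cases ?_ (fun i => ?_) i
    · exact hb _ _ _ _ h1
    · exact ih _ _ _ _ _ _ h3 i

/-! ### Linear sets and lacunary vectors -/

theorem closure_bound {M : Type} [AddCommMonoid M] (G : Set M) (hG : G.Finite) (f h : M →+ ℕ)
    (hbad : ∀ g ∈ G, h g = 0 → f g = 0) : ∃ c, ∀ v ∈ AddSubmonoid.closure G, f v ≤ c * h v := by
  obtain ⟨c, hc⟩ := (hG.image f).bddAbove
  refine ⟨c, fun v hv => ?_⟩
  induction hv using AddSubmonoid.closure_induction with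
  | mem g hg =>
    rcases Nat.eq_zero_or_pos (h g) with h0 | h0
    · rw [hbad g hg h0]
      exact Nat.zero_le _
    · exact (hc ⟨g, hg, rfl⟩).trans (Nat.le_mul_of_pos_right c h0)
  | zero => simp
  | add x y _ _ hx hy =>
    rw [map_add, map_add, mul_add]
    exact add_le_add hx hy

/-- The vector `u` (through its first components) is `c`-lacunary. -/
def Lac {N : ℕ} {V : Type} (c : ℕ) (u : Fin N → ℕ × V) : Prop :=
  ∀ j, c * (1 + ∑ i, if j < i then (u i).1 else 0) < (u j).1

/-- `A` contains a full-dimensional triangular family as soon as it contains a `c`-lacunary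
vector. -/
def Good {N : ℕ} {V : Type} [AddCommMonoid V] (A : Set (Fin N → ℕ × V)) (c : ℕ) : Prop :=
  ∀ u ∈ A, Lac c u → ∃ (b : Fin N → ℕ × V) (d : Fin N → (Fin N → ℕ × V)),
    (∀ j, (∀ i, j < i → (d j i).1 = 0) ∧ 0 < (d j j).1) ∧
    ∀ n : Fin N → ℕ, b + ∑ j, n j • d j ∈ A

theorem Lac.anti {N : ℕ} {V : Type} {c c' : ℕ} (hc : c ≤ c') {u : Fin N → ℕ × V}
    (h : Lac c' u) : Lac c u := fun j =>
  (Nat.mul_le_mul_right _ hc).trans_lt (h j)

theorem good_linear {N : ℕ} {V : Type} [AddCommMonoid V] (A : Set (Fin N → ℕ × V))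
    (hA : IsLinearSet A) : ∃ c, Good A c := by
  classical
  obtain ⟨b, G, hG, rfl⟩ := hA
  by_cases hgood : ∀ j : Fin N, ∃ g ∈ G, (∀ i, j < i → (g i).1 = 0) ∧ 0 < (g j).1
  · refine ⟨0, fun u _ _ => ?_⟩
    choose d hdG hd using hgood
    refine ⟨b, d, hd, fun n => ?_⟩
    refine ⟨∑ j, n j • d j, ?_, rfl⟩
    exact sum_mem fun j _ => nsmul_mem (AddSubmonoid.subset_closure (hdG j)) _
  · push Not at hgood
    obtain ⟨j, hj⟩ := hgood
    let X : Fin N → ((Fin N → ℕ × V) →+ ℕ) := fun i =>
      (AddMonoidHom.fst ℕ V).comp (Pi.evalAddMonoidHom (fun _ : Fin N => ℕ × V) i)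
    let h : (Fin N → ℕ × V) →+ ℕ := ∑ i, if j < i then X i else 0
    have hval : ∀ u : Fin N → ℕ × V, h u = ∑ i, if j < i then (u i).1 else 0 := by
      intro u
      simp only [h, AddMonoidHom.finsetSum_apply]
      refine Finset.sum_congr rfl fun i _ => ?_
      split_ifs
      · rfl
      · rfl
    obtain ⟨c0, hc0⟩ := closure_bound G hG (X j) h (by
      intro g hg hg0
      rw [hval] at hg0
      have hz := Finset.sum_eq_zero_iff.1 hg0
      refine Nat.le_zero.1 (hj g hg fun i hi => ?_)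
      have := hz i (Finset.mem_univ i)
      rwa [if_pos hi] at this)
    refine ⟨max c0 (b j).1, ?_⟩
    rintro u ⟨v, hv, rfl⟩ hlac
    exfalso
    have h1 := hlac j
    rw [← hval] at h1
    have h2 := hc0 v hv
    have h3 : h (b +ᵥ v) = h b + h v := map_add h b v
    have h4 : ((b +ᵥ v) j).1 = (b j).1 + X j v := rfl
    rw [h3, h4] at h1
    have h5 : c0 * h v ≤ max c0 (b j).1 * h v := Nat.mul_le_mul_right _ (le_max_left _ _)
    have h6 : (b j).1 ≤ max c0 (b j).1 := le_max_right _ _
    nlinarith [Nat.zero_le (max c0 (b j).1 * h b)]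

theorem good_finite {N : ℕ} {V : Type} [AddCommMonoid V] {I : Type*} [Finite I]
    (A : I → Set (Fin N → ℕ × V)) (hA : ∀ i, ∃ c, Good (A i) c) : ∃ c, ∀ i, Good (A i) c := by
  choose c hc using hA
  obtain ⟨C, hC⟩ := (Set.finite_range c).bddAbove
  exact ⟨C, fun i u hu hlac => hc i u hu (hlac.anti (hC ⟨i, rfl⟩))⟩

theorem good_semilinear {N : ℕ} {V : Type} [AddCommMonoid V] (A : Set (Fin N → ℕ × V))
    (hA : IsSemilinearSet A) : ∃ c, Good A c := by
  obtain ⟨S, hS, hlin, rfl⟩ := hA
  have : Finite S := hS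
  obtain ⟨c, hc⟩ := good_finite (fun t : S => t.1) (fun t => good_linear t.1 (hlin t.1 t.2))
  refine ⟨c, ?_⟩
  rintro u ⟨t, ht, hu⟩ hlac
  obtain ⟨b, d, h1, h2⟩ := hc ⟨t, ht⟩ u hu hlac
  exact ⟨b, d, h1, fun n => ⟨t, ht, h2 n⟩⟩

theorem exists_lac (c : ℕ) (N : ℕ) : ∃ x : Fin N → ℕ,
    ∀ j, c * (1 + ∑ i, if j < i then x i else 0) < x j := by
  induction N with
  | zero => exact ⟨Fin.elim0, fun j => Fin.elim0 j⟩
  | succ N ih =>
    obtain ⟨x, hx⟩ := ih
    refine ⟨Fin.cons (c * (1 + ∑ i, x i) + 1) x, fun j => ?_⟩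
    refine Fin.cases ?_ (fun j => ?_) j
    · rw [Fin.sum_univ_succ]
      simp
    · rw [Fin.sum_univ_succ]
      simpa using hx j

/-! ### No PTA -/

theorem no_pta (A : PTAR rk m) (hA : A.NoReset)
    (h1 : ∀ n (x : Fin n → ℕ), tr n x x ∈ A.lang)
    (h2 : ∀ n (x y : Fin n → ℕ), tr n x y ∈ A.lang → x = y) : False := by
  classical
  have := finite_Tr A
  let X : Fin (m + 1) → ((Fin (m + 1) → ℕ × (Fin m → ℕ)) →+ ℕ) := fun i =>
    (AddMonoidHom.fst ℕ (Fin m → ℕ)).comp (Pi.evalAddMonoidHom (fun _ : Fin (m + 1) => ℕ × (Fin m → ℕ)) i)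
  let W : Fin (m + 1) → ((Fin (m + 1) → ℕ × (Fin m → ℕ)) →+ (Fin m → ℕ)) := fun i =>
    (AddMonoidHom.snd ℕ (Fin m → ℕ)).comp (Pi.evalAddMonoidHom (fun _ : Fin (m + 1) => ℕ × (Fin m → ℕ)) i)
  let AA : (Fin (m + 1) → Tr A) → Set (Fin (m + 1) → ℕ × (Fin m → ℕ)) := fun t =>
    {u : (Fin (m + 1) → ℕ × (Fin m → ℕ)) | Run A (m + 1) t (fun i => X i u) (fun i => X i u) (fun i => W i u) A.init
      ((0 : (Fin (m + 1) → ℕ × (Fin m → ℕ)) →+ (Fin m → ℕ)) u + 0)}
  have hAA : ∀ t, IsSemilinearSet (AA t) := fun t =>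
    semilinear_run A hA (m + 1) t X W A.init 0 0
  obtain ⟨c, hc⟩ := good_finite AA (fun t => good_semilinear _ (hAA t))
  obtain ⟨x, hx⟩ := exists_lac c (m + 1)
  obtain ⟨t, v, hrun⟩ := (acc_tr A hA (m + 1) x x A.init 0).1 (h1 (m + 1) x)
  have hu : (fun i => (x i, v i) : (Fin (m + 1) → ℕ × (Fin m → ℕ))) ∈ AA t := by
    change Run A (m + 1) t x x v A.init (0 + 0)
    rw [add_zero]
    exact hrun
  obtain ⟨b, d, hd, hmem⟩ := hc t _ hu hx
  obtain ⟨bnd, hbnd⟩ := R_bound A
  -- increments of later blocks vanish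
  have hW : ∀ j i, j < i → W i (d j) = 0 := by
    intro j i hji
    have hX0 : X i (d j) = 0 := (hd j).1 i hji
    by_contra hne
    obtain ⟨k, hk⟩ : ∃ k, W i (d j) k ≠ 0 := by
      by_contra hcon
      push Not at hcon
      exact hne (funext hcon)
    let K := X i b * bnd k + 1
    have hm := hmem (fun l => if l = j then K else 0)
    have hsum : (∑ l, (if l = j then K else 0) • d l) = K • d j := by
      rw [Finset.sum_eq_single j]
      · simp
      · intro l _ hl
        rw [if_neg hl, zero_smul]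
      · intro hj
        exact absurd (Finset.mem_univ j) hj
    rw [hsum] at hm
    have hm' : Run A (m + 1) t (fun i => X i (b + K • d j)) (fun i => X i (b + K • d j))
      (fun i => W i (b + K • d j)) A.init ((0 : (Fin (m + 1) → ℕ × (Fin m → ℕ)) →+ (Fin m → ℕ)) (b + K • d j) + 0) := hm
    have hb := run_bound A bnd hbnd (m + 1) _ _ _ _ _ _ hm' i
    have hb' : W i (b + K • d j) ≤ (X i (b + K • d j)) • bnd := hb
    rw [map_add, map_nsmul, map_add, map_nsmul, hX0, smul_zero, add_zero] at hb'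
    have hbk : W i b k + K * W i (d j) k ≤ X i b * bnd k := hb' k
    have hk1 : 1 ≤ W i (d j) k := Nat.one_le_iff_ne_zero.2 hk
    have : K * 1 ≤ K * W i (d j) k := Nat.mul_le_mul_left K hk1
    have hK : K = X i b * bnd k + 1 := rfl
    omega
  -- linear dependence
  let al : Fin (m + 1) → (Fin m → ℤ) := fun j k => ((∑ l, W l (d j)) k : ℕ)
  have hdep : ¬ LinearIndependent ℤ al := by
    intro hli
    have := hli.fintype_card_le_finrank
    simp at this
  rw [Fintype.not_linearIndependent_iff] at hdep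
  obtain ⟨r, hr, j0, hj0⟩ := hdep
  obtain ⟨i, hi, himax⟩ := (Finset.univ.filter (fun j => r j ≠ 0)).exists_max_image id
    ⟨j0, Finset.mem_filter.2 ⟨Finset.mem_univ _, hj0⟩⟩
  have hri : r i ≠ 0 := (Finset.mem_filter.1 hi).2
  have hrj : ∀ j, i < j → r j = 0 := by
    intro j hj
    by_contra hne
    exact absurd (himax j (Finset.mem_filter.2 ⟨Finset.mem_univ _, hne⟩)) (not_le.2 hj)
  let n1 : Fin (m + 1) → ℕ := fun j => (r j).toNat
  let n2 : Fin (m + 1) → ℕ := fun j => (-(r j)).toNat
  have hn : ∀ j, (n1 j : ℤ) - (n2 j : ℤ) = r j := fun j => Int.toNat_sub_toNat_neg (r j)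
  let u1 : (Fin (m + 1) → ℕ × (Fin m → ℕ)) := b + ∑ j, n1 j • d j
  let u2 : (Fin (m + 1) → ℕ × (Fin m → ℕ)) := b + ∑ j, n2 j • d j
  have hu1 : u1 ∈ AA t := hmem n1
  have hu2 : u2 ∈ AA t := hmem n2
  -- a general computation
  have hdiff : ∀ (f : (Fin (m + 1) → ℕ × (Fin m → ℕ)) →+ ℕ), (f u1 : ℤ) - (f u2 : ℤ) = ∑ j, r j * (f (d j) : ℤ) := by
    intro f
    simp only [u1, u2, map_add, map_sum, map_nsmul, smul_eq_mul]
    push_cast
    rw [add_sub_add_left_eq_sub, ← Finset.sum_sub_distrib]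
    refine Finset.sum_congr rfl fun j _ => ?_
    rw [← hn j]
    ring
  have hS : ∀ k : Fin m, ((∑ l, if l ≤ i then W l u1 else 0) k) =
      ((∑ l, if l ≤ i then W l u2 else 0) k) := by
    intro k
    let f : (Fin (m + 1) → ℕ × (Fin m → ℕ)) →+ ℕ := ∑ l, if l ≤ i then (Pi.evalAddMonoidHom (fun _ : Fin m => ℕ) k).comp (W l)
      else 0
    have hf : ∀ u : (Fin (m + 1) → ℕ × (Fin m → ℕ)), f u = (∑ l, if l ≤ i then W l u else 0) k := by
      intro u
      simp only [f, AddMonoidHom.finsetSum_apply]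
      have e := Finset.sum_apply k Finset.univ (fun l => if l ≤ i then W l u else 0)
      rw [e]
      refine Finset.sum_congr rfl fun l _ => ?_
      split_ifs
      · rfl
      · rfl
    rw [← hf, ← hf]
    have h3 := hdiff f
    have h4 : ∑ j, r j * (f (d j) : ℤ) = 0 := by
      have h5 : ∑ j, r j * (f (d j) : ℤ) = ∑ j, r j * al j k := by
        refine Finset.sum_congr rfl fun j _ => ?_
        rcases le_or_gt j i with hji | hji
        · congr 1
          rw [hf]
          simp only [al]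
          congr 1
          refine congrFun (Finset.sum_congr rfl fun l _ => ?_) k
          split_ifs with hl
          · rfl
          · rw [hW j l (lt_of_le_of_lt hji (not_le.1 hl))]
        · rw [hrj j hji, zero_mul, zero_mul]
      rw [h5]
      have h6 := congrFun hr k
      simpa [Finset.sum_apply] using h6
    rw [h4] at h3
    omega
  have hXne : X i u1 ≠ X i u2 := by
    intro heq
    have h3 := hdiff (X i)
    rw [heq, sub_self, Finset.sum_eq_single i] at h3
    · have h4 : (X i (d i) : ℤ) ≠ 0 := by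
        have := (hd i).2
        have h5 : X i (d i) = (d i i).1 := rfl
        rw [h5]
        omega
      exact (mul_ne_zero hri h4) h3.symm
    · intro j _ hji
      rcases lt_or_gt_of_ne hji with hlt | hgt
      · have h5 : X i (d j) = 0 := (hd j).1 i hlt
        rw [h5]
        simp
      · rw [hrj j hgt, zero_mul]
    · intro hi
      exact absurd (Finset.mem_univ i) hi
  have hyb := run_hybrid A hA (m + 1) t (fun l => X l u1) (fun l => X l u2) (fun l => W l u1)
    (fun l => W l u2) A.init _ _ hu1 hu2 i (by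
      have : (∑ l, if l ≤ i then W l u1 else 0) = (∑ l, if l ≤ i then W l u2 else 0) :=
        funext hS
      simp only [AddMonoidHom.zero_apply]
      rw [this])
  have hacc : Acc A A.init 0 (tr (m + 1) (fun l => X l u1)
      (Function.update (fun l => X l u1) i (X i u2))) := by
    rw [acc_tr A hA]
    refine ⟨t, fun l => W l u1, ?_⟩
    have e0 : (0 : (Fin (m + 1) → ℕ × (Fin m → ℕ)) →+ (Fin m → ℕ)) u1 + 0 = 0 := by simp
    rw [e0] at hyb
    exact hyb
  have heq := h2 (m + 1) _ _ hacc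
  have := congrFun heq i
  rw [Function.update_self] at this
  exact hXne this

/-! ### The PTAR -/

/-- The transitions: `q0` is `false`, `q1` is `true`. -/
def trans0 : Set (Σ s : Sym, Bool × (Fin (rk s) → Bool × Option (Fin 2 → ℕ))) :=
  {⟨Sym.a, false, fun _ => (false, some ![1, 0])⟩,
   ⟨Sym.sg, false, (![(true, some 0), (false, none)] : Fin 2 → Bool × Option (Fin 2 → ℕ))⟩,
   ⟨Sym.e, false, fun i => (Fin.elim0 i : Bool × Option (Fin 2 → ℕ))⟩,
   ⟨Sym.a, true, fun _ => (true, some ![0, 1])⟩,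
   ⟨Sym.e, true, fun i => (Fin.elim0 i : Bool × Option (Fin 2 → ℕ))⟩}

def A0 : PTAR rk 2 where
  Q := Bool
  finQ := inferInstance
  init := false
  trans := trans0
  finTrans := by unfold trans0; exact Set.toFinite _
  acc := {w | w 0 = w 1}
  semilinear := by
    have h := isSemilinearSet_setOfPred_eq (0 : ℕ) 0 (Pi.evalAddMonoidHom (fun _ : Fin 2 => ℕ) 0)
      (Pi.evalAddMonoidHom (fun _ : Fin 2 => ℕ) 1)
    simpa using h

theorem vec_ext {i j : ℕ} {w : Fin 2 → ℕ} (h0 : w 0 = i) (h1 : w 1 = j) : w = ![i, j] := by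
  funext k
  fin_cases k
  · exact h0
  · exact h1

theorem a0_aT_false (i j : ℕ) (t : RTree rk) :
    Acc A0 false ![i, j] (aT t) ↔ Acc A0 false ![i + 1, j] t := by
  refine (acc_aT A0 false ![i, j] t).trans ?_
  have e1 : upd ![i, j] (some ![1, 0]) = ![i + 1, j] := vec_ext rfl rfl
  constructor
  · rintro ⟨f, hf, h⟩
    rcases hf with hf | hf | hf | hf | hf
    · have h1 := eq_of_heq (Sigma.mk.inj_iff.1 hf).2
      have h2 : f = fun _ => (false, some ![1, 0]) := (Prod.ext_iff.1 h1).2
      rw [h2] at h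
      have h' : Acc A0 false (upd ![i, j] (some ![1, 0])) t := h
      rwa [e1] at h'
    · exact absurd (Sigma.mk.inj_iff.1 hf).1 (by intro h; cases h)
    · exact absurd (Sigma.mk.inj_iff.1 hf).1 (by intro h; cases h)
    · have h1 := eq_of_heq (Sigma.mk.inj_iff.1 hf).2
      exact absurd (Prod.ext_iff.1 h1).1 (by intro h; cases h)
    · exact absurd (Sigma.mk.inj_iff.1 hf).1 (by intro h; cases h)
  · intro h
    refine ⟨fun _ => (false, some ![1, 0]), Or.inl rfl, ?_⟩
    change Acc A0 false (upd ![i, j] (some ![1, 0])) t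
    rw [e1]
    exact h

theorem a0_aT_true (i j : ℕ) (t : RTree rk) :
    Acc A0 true ![i, j] (aT t) ↔ Acc A0 true ![i, j + 1] t := by
  refine (acc_aT A0 true ![i, j] t).trans ?_
  have e1 : upd ![i, j] (some ![0, 1]) = ![i, j + 1] := vec_ext rfl rfl
  constructor
  · rintro ⟨f, hf, h⟩
    rcases hf with hf | hf | hf | hf | hf
    · have h1 := eq_of_heq (Sigma.mk.inj_iff.1 hf).2
      exact absurd (Prod.ext_iff.1 h1).1 (by intro h; cases h)
    · exact absurd (Sigma.mk.inj_iff.1 hf).1 (by intro h; cases h)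
    · exact absurd (Sigma.mk.inj_iff.1 hf).1 (by intro h; cases h)
    · have h1 := eq_of_heq (Sigma.mk.inj_iff.1 hf).2
      have h2 : f = fun _ => (true, some ![0, 1]) := (Prod.ext_iff.1 h1).2
      rw [h2] at h
      have h' : Acc A0 true (upd ![i, j] (some ![0, 1])) t := h
      rwa [e1] at h'
    · exact absurd (Sigma.mk.inj_iff.1 hf).1 (by intro h; cases h)
  · intro h
    refine ⟨fun _ => (true, some ![0, 1]), Or.inr (Or.inr (Or.inr (Or.inl rfl))), ?_⟩
    change Acc A0 true (upd ![i, j] (some ![0, 1])) t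
    rw [e1]
    exact h

theorem a0_sgT (i j : ℕ) (l r : RTree rk) :
    Acc A0 false ![i, j] (sgT l r) ↔ Acc A0 true ![i, j] l ∧ Acc A0 false ![0, 0] r := by
  refine (acc_sgT A0 false ![i, j] l r).trans ?_
  have e1 : upd ![i, j] (some 0) = ![i, j] := add_zero _
  have e2 : upd ![i, j] none = ![0, 0] := vec_ext rfl rfl
  constructor
  · rintro ⟨f, hf, h, h'⟩
    rcases hf with hf | hf | hf | hf | hf
    · exact absurd (Sigma.mk.inj_iff.1 hf).1 (by intro h; cases h)
    · have h1 := eq_of_heq (Sigma.mk.inj_iff.1 hf).2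
      have h2 : f = ![(true, some 0), (false, none)] := (Prod.ext_iff.1 h1).2
      rw [h2] at h h'
      have h3 : Acc A0 true (upd ![i, j] (some 0)) l := h
      have h4 : Acc A0 false (upd ![i, j] none) r := h'
      rw [e1] at h3
      rw [e2] at h4
      exact ⟨h3, h4⟩
    · exact absurd (Sigma.mk.inj_iff.1 hf).1 (by intro h; cases h)
    · exact absurd (Sigma.mk.inj_iff.1 hf).1 (by intro h; cases h)
    · exact absurd (Sigma.mk.inj_iff.1 hf).1 (by intro h; cases h)
  · rintro ⟨h, h'⟩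
    refine ⟨![(true, some 0), (false, none)], Or.inr (Or.inl rfl), ?_, ?_⟩
    · change Acc A0 true (upd ![i, j] (some 0)) l
      rw [e1]
      exact h
    · change Acc A0 false (upd ![i, j] none) r
      rw [e2]
      exact h'

theorem a0_eT (q : Bool) (i j : ℕ) : Acc A0 q ![i, j] eT ↔ i = j := by
  refine (acc_eT A0 q ![i, j]).trans ?_
  constructor
  · rintro ⟨-, h⟩
    exact h
  · intro h
    refine ⟨⟨fun i => (Fin.elim0 i : Bool × Option (Fin 2 → ℕ)), ?_⟩, h⟩
    cases q
    · exact Or.inr (Or.inr (Or.inl rfl))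
    · exact Or.inr (Or.inr (Or.inr (Or.inr rfl)))

theorem a0_chain_false (t : RTree rk) (n : ℕ) : ∀ i j : ℕ,
    Acc A0 false ![i, j] (chain n t) ↔ Acc A0 false ![i + n, j] t := by
  induction n with
  | zero => intro i j; exact Iff.rfl
  | succ n ih =>
    intro i j
    change Acc A0 false ![i, j] (aT (chain n t)) ↔ _
    rw [a0_aT_false, ih, add_right_comm, add_assoc]

theorem a0_chain_true (t : RTree rk) (n : ℕ) : ∀ i j : ℕ,
    Acc A0 true ![i, j] (chain n t) ↔ Acc A0 true ![i, j + n] t := by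
  induction n with
  | zero => intro i j; exact Iff.rfl
  | succ n ih =>
    intro i j
    change Acc A0 true ![i, j] (aT (chain n t)) ↔ _
    rw [a0_aT_true, ih, add_right_comm, add_assoc]

theorem a0_tr (n : ℕ) : ∀ x y : Fin n → ℕ, Acc A0 false ![0, 0] (tr n x y) ↔ x = y := by
  induction n with
  | zero =>
    intro x y
    constructor
    · intro _
      exact Subsingleton.elim _ _
    · intro _
      exact (a0_eT false 0 0).2 rfl
  | succ n ih =>
    intro x y
    change Acc A0 false ![0, 0] (chain (x 0) (sgT (chain (y 0) eT)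
      (tr n (Fin.tail x) (Fin.tail y)))) ↔ _
    rw [a0_chain_false, a0_sgT, a0_chain_true, a0_eT, ih, zero_add, zero_add]
    constructor
    · rintro ⟨h0, h1⟩
      funext i
      refine Fin.cases h0 (fun i => ?_) i
      exact congrFun h1 i
    · rintro rfl
      exact ⟨rfl, rfl⟩

theorem mem_lang_a0 (n : ℕ) (x y : Fin n → ℕ) : tr n x y ∈ A0.lang ↔ x = y := by
  rw [← a0_tr]
  have : (0 : Fin 2 → ℕ) = ![0, 0] := vec_ext rfl rfl
  change Acc A0 false 0 _ ↔ _
  rw [this]

/-- **Main theorem.** There are a (finite) ranked alphabet and a tree language over it that is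
PTAR-recognizable but not PTA-recognizable. -/
theorem result : ∃ (S : Type) (_ : Finite S) (rk : S → ℕ) (L : Set (RTree rk)),
    PTARRecognizable L ∧ ¬ PTARecognizable L := by
  refine ⟨Sym, ?_, rk, A0.lang, ⟨2, by norm_num, A0, rfl⟩, ?_⟩
  · refine Finite.of_injective (fun s : Sym => match s with
      | Sym.sg => (0 : Fin 3)
      | Sym.a => 1
      | Sym.e => 2) ?_
    intro s s' h
    cases s <;> cases s' <;> first | rfl | exact absurd h (by decide)
  · rintro ⟨m, -, A, hA, hL⟩
    refine no_pta A hA ?_ ?_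
    · intro n x
      rw [hL]
      exact (mem_lang_a0 n x x).2 rfl
    · intro n x y h
      rw [hL] at h
      exact (mem_lang_a0 n x y).1 h

end Pool.Agent.Results.MP_78a33a_lc.Separation
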